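import Pool.Agent.Helper28.MG.CFG

/-!
From the counting theorem to unbounded representation functions.
-/
namespace Pool.Agent.Helper28.MG

open Filter

/-- if subsets of `A` are generated by `P` productions and have more than `|P| ^ E` elements, for
every `E`, then the representation function of `A` is unbounded -/
theorem unbounded_of {A : Set ℕ}
    (h : ∀ E : ℕ, ∃ (ι : Type) (P : Finset (Rule ι)) (i : ι) (B : Finset ℕ),
      (∀ x, Gen P i x → x ∈ A) ∧ (∀ x ∈ B, Gen P i x) ∧ P.card ^ E < B.card) (R : ℕ) :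
    ∃ n, R < rep A n := by
  by_contra hcon
  push Not at hcon
  obtain ⟨ι, P, i, B, h1, h2, h3⟩ := h (2 * (R - 1) - 1)
  obtain ⟨F, hF, hFc⟩ := bound (A := A) hcon P i h1
  have h4 : B ⊆ F := fun x hx => hF (h2 x hx)
  have := Finset.card_le_card h4
  omega

theorem set_finite (A : Set ℕ) (x : ℕ) : ({a | a ∈ A ∧ a < x} : Set ℕ).Finite :=
  (Set.finite_lt_nat x).subset (fun _ h => h.2)

/-- an asymptotic basis of order `h` has many elements below `x` -/
theorem card_of_basis {A : Set ℕ} {h N : ℕ}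
    (hb : ∀ n, N ≤ n → ∃ f : Fin h → ℕ, (∀ i, f i ∈ A) ∧ ∑ i, f i = n) (x : ℕ) (F : Finset ℕ)
    (hF : ∀ a ∈ A, a < x → a ∈ F) : x ≤ N + F.card ^ h := by
  classical
  have hcov : (Finset.Ico N x) ⊆ (Fintype.piFinset (fun _ : Fin h => F)).image
      (fun f => ∑ i, f i) := by
    intro n hn
    rw [Finset.mem_Ico] at hn
    obtain ⟨f, hf, hs⟩ := hb n hn.1
    rw [Finset.mem_image]
    refine ⟨f, ?_, hs⟩
    rw [Fintype.mem_piFinset]
    intro i
    apply hF _ (hf i)
    have : f i ≤ ∑ i, f i := Finset.single_le_sum (f := f) (fun _ _ => Nat.zero_le _)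
      (Finset.mem_univ i)
    omega
  have h1 := Finset.card_le_card hcov
  rw [Nat.card_Ico] at h1
  have h2 : x - N ≤ F.card ^ h := by
    refine le_trans h1 (le_trans Finset.card_image_le ?_)
    rw [Fintype.card_piFinset]
    simp
  omega

/-- exponentials beat powers -/
theorem exp_beats (a b q : ℕ) : ∃ s, a + (b * (s + 1)) ^ q < 2 ^ s := by
  have h1 := tendsto_pow_const_div_const_pow_of_one_lt q (r := (2 : ℝ)) (by norm_num)
  -- `n ^ q / 2 ^ n → 0`
  have h2 : Tendsto (fun n : ℕ => (2 * (b : ℝ) ^ q) * ((n : ℝ) ^ q / 2 ^ n)) atTop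
      (nhds ((2 * (b : ℝ) ^ q) * 0)) := h1.const_mul _
  have h3 : Tendsto (fun n : ℕ => (a : ℝ) / 2 ^ n) atTop (nhds 0) := by
    have := (tendsto_pow_atTop_nhds_zero_of_lt_one (r := (1 / 2 : ℝ)) (by norm_num)
      (by norm_num)).const_mul (a : ℝ)
    rw [mul_zero] at this
    refine this.congr (fun n => ?_)
    rw [one_div, inv_pow, div_eq_mul_inv]
  rw [mul_zero] at h2
  have e1 := h2.eventually (gt_mem_nhds (show (0 : ℝ) < 1 / 4 by norm_num))
  have e2 := h3.eventually (gt_mem_nhds (show (0 : ℝ) < 1 / 4 by norm_num))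
  obtain ⟨n, hn1, hn2, hn3⟩ := (e1.and (e2.and (eventually_ge_atTop 1))).exists
  refine ⟨n - 1, ?_⟩
  have hp : (0 : ℝ) < 2 ^ n := by positivity
  rw [← mul_div_assoc, div_lt_iff₀ hp] at hn1
  rw [div_lt_iff₀ hp] at hn2
  have hn : n - 1 + 1 = n := by omega
  rw [hn]
  have hpow : (2 : ℝ) ^ n = 2 * 2 ^ (n - 1) := by
    conv_lhs => rw [← hn]
    rw [pow_succ]; ring
  have key : ((a : ℝ) + ((b : ℝ) * (n : ℝ)) ^ q) < 2 ^ (n - 1) := by
    rw [mul_pow]
    rw [hpow] at hn1 hn2
    have hp2 : (0 : ℝ) < 2 ^ (n - 1) := by positivity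
    nlinarith
  exact_mod_cast key

/-- the number of multisets of `h` elements of `A` with sum `n` -/
noncomputable def urep (A : Set ℕ) (h n : ℕ) : ℕ :=
  Set.ncard {s : Multiset ℕ | Multiset.card s = h ∧ (∀ a ∈ s, a ∈ A) ∧ s.sum = n}

theorem urep_finite (A : Set ℕ) (h n : ℕ) :
    ({s : Multiset ℕ | Multiset.card s = h ∧ (∀ a ∈ s, a ∈ A) ∧ s.sum = n}).Finite := by
  classical
  apply (Finset.finite_toSet (Multiset.powerset (h • Multiset.range (n + 1))).toFinset).subset
  rintro s ⟨h1, _, h3⟩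
  rw [Finset.mem_coe, Multiset.mem_toFinset, Multiset.mem_powerset, Multiset.le_iff_count]
  intro a
  rw [Multiset.count_nsmul]
  by_cases ha : a ∈ s
  · have h4 : a ≤ n := by
      rw [← h3]
      exact Multiset.single_le_sum (fun _ _ => Nat.zero_le _) a ha
    have h5 : Multiset.count a (Multiset.range (n + 1)) = 1 :=
      Multiset.count_eq_one_of_mem (Multiset.nodup_range _) (by rw [Multiset.mem_range]; omega)
    rw [h5, mul_one, ← h1]
    exact Multiset.count_le_card a s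
  · rw [Multiset.count_eq_zero_of_notMem ha]
    exact Nat.zero_le _

/-- many ordered pairs give many multisets of any size `h ≥ 2` -/
theorem rep_le_urep {A : Set ℕ} {a0 : ℕ} (ha0 : a0 ∈ A) {h : ℕ} (hh : 2 ≤ h) (n : ℕ) :
    rep A n ≤ 2 * urep A h (n + (h - 2) * a0) := by
  classical
  set S : Set (ℕ × ℕ) := {p | p.1 ∈ A ∧ p.2 ∈ A ∧ p.1 + p.2 = n} with hS
  set S1 : Set (ℕ × ℕ) := {p | p ∈ S ∧ p.1 ≤ p.2} with hS1
  have hfin : S.Finite := rep_finite A n
  have hfin1 : S1.Finite := hfin.subset (fun p hp => hp.1)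
  have h1 : S ⊆ S1 ∪ Prod.swap '' S1 := by
    intro p hp
    rcases le_total p.1 p.2 with h | h
    · exact Or.inl ⟨hp, h⟩
    · right
      refine ⟨p.swap, ⟨⟨hp.2.1, hp.1, ?_⟩, h⟩, Prod.swap_swap p⟩
      rw [Prod.fst_swap, Prod.snd_swap, add_comm]
      exact hp.2.2
  have h2 : S.ncard ≤ 2 * S1.ncard := by
    refine le_trans (Set.ncard_le_ncard h1 (hfin1.union (hfin1.image _))) ?_
    refine le_trans (Set.ncard_union_le _ _) ?_
    have := Set.ncard_image_le (f := Prod.swap) hfin1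
    omega
  refine le_trans h2 (Nat.mul_le_mul_left 2 ?_)
  refine Set.ncard_le_ncard_of_injOn
    (fun p : ℕ × ℕ => p.1 ::ₘ p.2 ::ₘ Multiset.replicate (h - 2) a0) ?_ ?_ (urep_finite A h _)
  · rintro ⟨x, y⟩ ⟨⟨hx, hy, hxy⟩, _⟩
    refine ⟨?_, ?_, ?_⟩
    · simp only [Multiset.card_cons, Multiset.card_replicate]; omega
    · intro a ha
      simp only [Multiset.mem_cons] at ha
      rcases ha with rfl | rfl | ha
      · exact hx
      · exact hy
      · rw [Multiset.eq_of_mem_replicate ha]; exact ha0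
    · simp only [Multiset.sum_cons, Multiset.sum_replicate, smul_eq_mul]
      simp only at hxy
      omega
  · rintro ⟨x, y⟩ ⟨⟨_, _, hxy⟩, hle⟩ ⟨x', y'⟩ ⟨⟨_, _, hxy'⟩, hle'⟩ heq
    simp only at heq hxy hxy' hle hle'
    have e : ({x, y} : Multiset ℕ) = {x', y'} := by
      have e1 : ({x, y} : Multiset ℕ) + Multiset.replicate (h - 2) a0 =
          {x', y'} + Multiset.replicate (h - 2) a0 := by
        simpa [Multiset.insert_eq_cons] using heq
      exact add_right_cancel e1
    have hx : x ∈ ({x', y'} : Multiset ℕ) := by rw [← e]; simp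
    simp only [Multiset.insert_eq_cons, Multiset.mem_cons, Multiset.mem_singleton] at hx
    have hx' : x' ∈ ({x, y} : Multiset ℕ) := by rw [e]; simp
    simp only [Multiset.insert_eq_cons, Multiset.mem_cons, Multiset.mem_singleton] at hx'
    rw [Prod.mk.injEq]
    omega

/-- unbounded representation functions of all orders -/
theorem urep_unbounded {A : Set ℕ} (hA : ∀ R, ∃ n, R < rep A n) {h : ℕ} (hh : 2 ≤ h) (M : ℕ) :
    ∃ n, M < urep A h n := by
  obtain ⟨n, hn⟩ := hA (2 * M)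
  have h0 : ({p : ℕ × ℕ | p.1 ∈ A ∧ p.2 ∈ A ∧ p.1 + p.2 = n}).Nonempty := by
    apply Set.nonempty_of_ncard_ne_zero
    unfold rep at hn
    omega
  obtain ⟨p, hp, _⟩ := h0
  refine ⟨n + (h - 2) * p.1, ?_⟩
  have := rep_le_urep hp hh n
  omega

/-- multisets as functions -/
theorem fun_of_multiset {A : Set ℕ} {h n : ℕ} {s : Multiset ℕ} (h1 : Multiset.card s = h)
    (h2 : ∀ a ∈ s, a ∈ A) (h3 : s.sum = n) : ∃ f : Fin h → ℕ, (∀ i, f i ∈ A) ∧ ∑ i, f i = n := by
  subst h1
  induction s using Quotient.inductionOn with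
  | _ l =>
    refine ⟨fun i => l.get i, fun i => h2 _ ?_, ?_⟩
    · exact List.get_mem l i
    · rw [← h3]
      change ∑ i : Fin l.length, l[(i : ℕ)] = l.sum
      exact Fin.sum_univ_getElem l

end Pool.Agent.Helper28.MG
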