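import Pool.Agent.Helper28.MG.Core

/-!
Values of the words of a context-free language in an additive positional numeration: the values of
the words of length at most `L` are generated by `O(L ^ 3)` productions.
-/
namespace Pool.Agent.Helper28.MG

open ContextFreeGrammar

variable {T : Type}

/-- the value of the word `w` whose first letter stands at position `i`, the letter `t` at position
`u` having the weight `W u t` -/
def val (W : ℕ → T → ℕ) : ℕ → List T → ℕ
  | _, [] => 0
  | i, t :: w => W i t + val W (i + 1) w

theorem val_append (W : ℕ → T → ℕ) (u w : List T) : ∀ i, val W i (u ++ w) =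
    val W i u + val W (i + u.length) w := by
  induction u with
  | nil => intro i; simp [val]
  | cons t u ih =>
    intro i
    simp only [List.cons_append, val, List.length_cons]
    rw [ih (i + 1), show i + 1 + u.length = i + (u.length + 1) by omega]
    omega

/-- structural derivations -/
inductive Yields (g : ContextFreeGrammar T) : List (Symbol T g.NT) → List T → Prop
  | nil : Yields g [] []
  | term {t : T} {α : List (Symbol T g.NT)} {w : List T} : Yields g α w →
      Yields g (Symbol.terminal t :: α) (t :: w)
  | rule {r : ContextFreeRule T g.NT} {α : List (Symbol T g.NT)} {u w : List T} : r ∈ g.rules →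
      Yields g r.output u → Yields g α w →
      Yields g (Symbol.nonterminal r.input :: α) (u ++ w)

variable {g : ContextFreeGrammar T}

theorem Yields.split {α β : List (Symbol T g.NT)} : ∀ {w : List T}, Yields g (α ++ β) w →
    ∃ u v, w = u ++ v ∧ Yields g α u ∧ Yields g β v := by
  induction α with
  | nil => intro w h; exact ⟨[], w, rfl, Yields.nil, h⟩
  | cons X α ih =>
    intro w h
    rw [List.cons_append] at h
    generalize hγ : X :: (α ++ β) = γ at h
    cases h with
    | nil => exact absurd hγ (by simp)
    | term h' =>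
      rw [List.cons.injEq] at hγ
      obtain ⟨h1, h2⟩ := hγ
      subst h1
      rw [← h2] at h'
      obtain ⟨u, v, rfl, hu, hv⟩ := ih h'
      exact ⟨_ :: u, v, rfl, Yields.term hu, hv⟩
    | rule hr ho h' =>
      rw [List.cons.injEq] at hγ
      obtain ⟨h1, h2⟩ := hγ
      subst h1
      rw [← h2] at h'
      obtain ⟨u, v, rfl, hu, hv⟩ := ih h'
      exact ⟨_ ++ u, v, by simp, Yields.rule hr ho hu, hv⟩

theorem yields_of_rewrites {r : ContextFreeRule T g.NT} (hr : r ∈ g.rules)
    {α β : List (Symbol T g.NT)} (h : r.Rewrites α β) : ∀ {w : List T}, Yields g β w →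
    Yields g α w := by
  induction h with
  | head s =>
    intro w hw
    obtain ⟨u, v, rfl, hu, hv⟩ := hw.split
    exact Yields.rule hr hu hv
  | cons x _ ih =>
    intro w hw
    cases hw with
    | term h' => exact Yields.term (ih h')
    | rule hr' ho h' => exact Yields.rule hr' ho (ih h')

theorem yields_terminals (w : List T) : Yields g (w.map Symbol.terminal) w := by
  induction w with
  | nil => exact Yields.nil
  | cons t w ih => exact Yields.term ih

theorem yields_of_derives {α : List (Symbol T g.NT)} {w : List T}
    (h : g.Derives α (w.map Symbol.terminal)) : Yields g α w := by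
  induction h using Relation.ReflTransGen.head_induction_on with
  | refl => exact yields_terminals w
  | head h' _ ih =>
    obtain ⟨r, hr, hrw⟩ := h'
    exact yields_of_rewrites hr hrw ih

theorem Yields.derives {α : List (Symbol T g.NT)} {w : List T} (h : Yields g α w) :
    g.Derives α (w.map Symbol.terminal) := by
  induction h with
  | nil => exact Relation.ReflTransGen.refl
  | term _ ih =>
    rename_i t α w _
    exact ih.append_left [Symbol.terminal t]
  | rule hr _ _ ih1 ih2 =>
    rename_i r α u w _ _
    rw [List.map_append]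
    have h1 : g.Derives ([Symbol.nonterminal r.input] ++ α) (r.output ++ α) := by
      apply Produces.single
      refine ⟨r, hr, ?_⟩
      exact (ContextFreeRule.Rewrites.input_output (r := r)).append_right α
    have h2 := ih1.append_right α
    have h3 := ih2.append_left (u.map Symbol.terminal)
    exact (h1.trans h2).trans h3

theorem mem_language_iff_yields {w : List T} :
    w ∈ g.language ↔ Yields g [Symbol.nonterminal g.initial] w :=
  ⟨fun h => yields_of_derives h, fun h => h.derives⟩

theorem Yields.nil_inv {w : List T} (h : Yields g [] w) : w = [] := by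
  cases h; rfl

theorem Yields.cons_of {X : Symbol T g.NT} {α : List (Symbol T g.NT)} {u w : List T}
    (h1 : Yields g [X] u) (h2 : Yields g α w) : Yields g (X :: α) (u ++ w) := by
  generalize hγ : [X] = γ at h1
  cases h1 with
  | nil => exact absurd hγ (by simp)
  | term h' =>
    rw [List.cons.injEq] at hγ
    obtain ⟨h3, h4⟩ := hγ
    subst h3
    rw [← h4] at h'
    rw [h'.nil_inv]
    exact Yields.term h2
  | rule hr ho h' =>
    rw [List.cons.injEq] at hγ
    obtain ⟨h3, h4⟩ := hγ
    subst h3
    rw [← h4] at h'
    rw [h'.nil_inv, List.append_nil]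
    exact Yields.rule hr ho h2

/-- the indices of the generated sets: a string of symbols with its span, and one start index -/
abbrev Idx (g : ContextFreeGrammar T) : Type := Option (List (Symbol T g.NT) × ℕ × ℕ)

/-- the production for the letter at the head of a string -/
def letter (W : ℕ → T → ℕ) (g : ContextFreeGrammar T) (q : List (Symbol T g.NT) × ℕ) :
    Rule (Idx g) :=
  match q.1 with
  | Symbol.terminal t :: _ => Rule.const (some ([Symbol.terminal t], q.2, q.2 + 1)) (W q.2 t)
  | _ => Rule.const (some ([], q.2, q.2)) 0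

/-- the production that splits a string after its first symbol -/
def cut (g : ContextFreeGrammar T) (q : List (Symbol T g.NT) × ℕ × ℕ × ℕ) : Rule (Idx g) :=
  match q.1 with
  | X :: α => Rule.sum (some (X :: α, q.2.1, q.2.2.2)) (some ([X], q.2.1, q.2.2.1))
      (some (α, q.2.2.1, q.2.2.2))
  | [] => Rule.const (some ([], q.2.1, q.2.1)) 0

/-- the strings that occur: suffixes of right sides of rules and of the start string -/
noncomputable def suf (g : ContextFreeGrammar T) : Finset (List (Symbol T g.NT)) := by
  classical
  exact (g.rules.biUnion (fun r => r.output.tails.toFinset)) ∪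
    [Symbol.nonterminal g.initial].tails.toFinset

theorem suf_output {r : ContextFreeRule T g.NT} (hr : r ∈ g.rules) : r.output ∈ suf g := by
  classical
  simp only [suf, Finset.mem_union, Finset.mem_biUnion, List.mem_toFinset, List.mem_tails]
  exact Or.inl ⟨r, hr, List.suffix_refl _⟩

theorem suf_initial : [Symbol.nonterminal g.initial] ∈ suf g := by
  classical
  simp only [suf, Finset.mem_union, Finset.mem_biUnion, List.mem_toFinset, List.mem_tails]
  exact Or.inr (List.suffix_refl _)

theorem suf_tail {X : Symbol T g.NT} {α : List (Symbol T g.NT)} (h : X :: α ∈ suf g) :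
    α ∈ suf g := by
  classical
  simp only [suf, Finset.mem_union, Finset.mem_biUnion, List.mem_toFinset, List.mem_tails] at h ⊢
  rcases h with ⟨r, hr, h⟩ | h
  · exact Or.inl ⟨r, hr, (List.suffix_cons X α).trans h⟩
  · exact Or.inr ((List.suffix_cons X α).trans h)

/-- the productions for words of length at most `L` -/
noncomputable def prods (W : ℕ → T → ℕ) (g : ContextFreeGrammar T) (L : ℕ) :
    Finset (Rule (Idx g)) := by
  classical
  exact ((Finset.range (L + 1)).image (fun l =>
      (Rule.unit none (some ([Symbol.nonterminal g.initial], 0, l)) : Rule (Idx g)))) ∪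
    (((Finset.range (L + 1)).image (fun i => (Rule.const (some ([], i, i)) 0 : Rule (Idx g)))) ∪
    (((suf g ×ˢ Finset.range (L + 1)).image (letter W g)) ∪
    (((suf g ×ˢ Finset.range (L + 1) ×ˢ Finset.range (L + 1) ×ˢ Finset.range (L + 1)).image
      (cut g)) ∪
    ((g.rules ×ˢ Finset.range (L + 1) ×ˢ Finset.range (L + 1)).image (fun q =>
      (Rule.unit (some ([Symbol.nonterminal q.1.input], q.2.1, q.2.2))
        (some (q.1.output, q.2.1, q.2.2)) : Rule (Idx g)))))))

theorem mem_prods {W : ℕ → T → ℕ} {L : ℕ} {p : Rule (Idx g)} : p ∈ prods W g L ↔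
    (∃ l < L + 1, (Rule.unit none (some ([Symbol.nonterminal g.initial], 0, l)) : Rule (Idx g)) = p) ∨
    (∃ i < L + 1, (Rule.const (some ([], i, i)) 0 : Rule (Idx g)) = p) ∨
    (∃ q : List (Symbol T g.NT) × ℕ, (q.1 ∈ suf g ∧ q.2 < L + 1) ∧ letter W g q = p) ∨
    (∃ q : List (Symbol T g.NT) × ℕ × ℕ × ℕ,
      (q.1 ∈ suf g ∧ q.2.1 < L + 1 ∧ q.2.2.1 < L + 1 ∧ q.2.2.2 < L + 1) ∧ cut g q = p) ∨
    (∃ q : ContextFreeRule T g.NT × ℕ × ℕ, (q.1 ∈ g.rules ∧ q.2.1 < L + 1 ∧ q.2.2 < L + 1) ∧
      (Rule.unit (some ([Symbol.nonterminal q.1.input], q.2.1, q.2.2))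
        (some (q.1.output, q.2.1, q.2.2)) : Rule (Idx g)) = p) := by
  classical
  simp only [prods, Finset.mem_union, Finset.mem_image, Finset.mem_product, Finset.mem_range]

theorem prods_card (W : ℕ → T → ℕ) (g : ContextFreeGrammar T) (L : ℕ) :
    (prods W g L).card ≤ (2 + 2 * (suf g).card + g.rules.card) * (L + 1) ^ 3 := by
  classical
  have h1 : 1 ≤ L + 1 := by omega
  have e3 : (L + 1) ^ 3 = (L + 1) * ((L + 1) * (L + 1)) := by ring
  have hq : L + 1 ≤ (L + 1) * ((L + 1) * (L + 1)) := by
    calc L + 1 = (L + 1) * (1 * 1) := by ring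
      _ ≤ _ := Nat.mul_le_mul_left _ (Nat.mul_le_mul h1 h1)
  have hq2 : (L + 1) * (L + 1) ≤ (L + 1) * ((L + 1) * (L + 1)) := by
    calc (L + 1) * (L + 1) = (L + 1) * (1 * (L + 1)) := by ring
      _ ≤ _ := Nat.mul_le_mul_left _ (Nat.mul_le_mul_right _ h1)
  unfold prods
  refine le_trans (Finset.card_union_le _ _) ?_
  refine le_trans (Nat.add_le_add Finset.card_image_le (Finset.card_union_le _ _)) ?_
  refine le_trans (Nat.add_le_add_left (Nat.add_le_add Finset.card_image_le
    (Finset.card_union_le _ _)) _) ?_
  refine le_trans (Nat.add_le_add_left (Nat.add_le_add_left (Nat.add_le_add Finset.card_image_le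
    (Finset.card_union_le _ _)) _) _) ?_
  refine le_trans (Nat.add_le_add_left (Nat.add_le_add_left (Nat.add_le_add_left
    (Nat.add_le_add Finset.card_image_le Finset.card_image_le) _) _) _) ?_
  simp only [Finset.card_range, Finset.card_product]
  rw [e3]
  nlinarith [Nat.mul_le_mul_left (suf g).card hq, Nat.mul_le_mul_left g.rules.card hq2, hq]

/-- soundness -/
theorem gen_sound {W : ℕ → T → ℕ} {L : ℕ} {i : Idx g} {x : ℕ} (h : Gen (prods W g L) i x) :
    match i with
    | none => ∃ w, Yields g [Symbol.nonterminal g.initial] w ∧ w.length ≤ L ∧ x = val W 0 w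
    | some (α, a, b) => ∃ w, Yields g α w ∧ a + w.length = b ∧ x = val W a w := by
  classical
  induction h with
  | const h =>
    rename_i i c
    rw [mem_prods] at h
    rcases h with ⟨l, _, h⟩ | ⟨i', _, h⟩ | ⟨q, _, h⟩ | ⟨q, _, h⟩ | ⟨q, _, h⟩
    · cases h
    · cases h
      exact ⟨[], Yields.nil, rfl, rfl⟩
    · obtain ⟨β, n⟩ := q
      unfold letter at h
      split at h
      · cases h
        exact ⟨[_], Yields.term Yields.nil, rfl, by simp [val]⟩
      · cases h
        exact ⟨[], Yields.nil, rfl, rfl⟩
    · obtain ⟨β, a, m, b⟩ := q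
      unfold cut at h
      split at h
      · cases h
      · cases h
        exact ⟨[], Yields.nil, rfl, rfl⟩
    · cases h
  | unit h _ ih =>
    rename_i i j x _
    rw [mem_prods] at h
    rcases h with ⟨l, hl, h⟩ | ⟨i', _, h⟩ | ⟨q, _, h⟩ | ⟨q, _, h⟩ | ⟨q, hq, h⟩
    · cases h
      obtain ⟨w, hw, hlen, hx⟩ := ih
      exact ⟨w, hw, by omega, hx⟩
    · cases h
    · obtain ⟨β, n⟩ := q
      unfold letter at h
      split at h <;> cases h
    · obtain ⟨β, a, m, b⟩ := q
      unfold cut at h
      split at h <;> cases h
    · cases h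
      obtain ⟨w, hw, hlen, hx⟩ := ih
      refine ⟨w, ?_, hlen, hx⟩
      have := Yields.rule hq.1 hw Yields.nil
      rwa [List.append_nil] at this
  | sum h _ _ ih1 ih2 =>
    rename_i i j l x y _ _
    rw [mem_prods] at h
    rcases h with ⟨l, hl, h⟩ | ⟨i', _, h⟩ | ⟨q, _, h⟩ | ⟨q, _, h⟩ | ⟨q, hq, h⟩
    · cases h
    · cases h
    · obtain ⟨β, n⟩ := q
      unfold letter at h
      split at h <;> cases h
    · obtain ⟨β, a, m, b⟩ := q
      unfold cut at h
      split at h
      · cases h
        obtain ⟨u, hu, hulen, hux⟩ := ih1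
        obtain ⟨w, hw, hwlen, hwx⟩ := ih2
        refine ⟨u ++ w, hu.cons_of hw, ?_, ?_⟩
        · rw [List.length_append]; simp only at hulen hwlen ⊢; omega
        · rw [val_append, hulen, hux, hwx]
      · cases h
    · cases h

/-- completeness -/
theorem gen_complete {W : ℕ → T → ℕ} {L : ℕ} {α : List (Symbol T g.NT)} {w : List T}
    (h : Yields g α w) : α ∈ suf g → ∀ i, i + w.length ≤ L →
    Gen (prods W g L) (some (α, i, i + w.length)) (val W i w) := by
  classical
  induction h with
  | nil =>
    intro _ i hi
    apply Gen.const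
    rw [mem_prods]
    exact Or.inr (Or.inl ⟨i, by simpa using Nat.lt_succ_of_le hi, rfl⟩)
  | term _ ih =>
    rename_i t α w _
    intro hα i hi
    rw [List.length_cons] at hi ⊢
    have h1 := ih (suf_tail hα) (i + 1) (by omega)
    rw [show i + 1 + w.length = i + (w.length + 1) by omega] at h1
    have h2 : Gen (prods W g L) (some ([Symbol.terminal t], i, i + 1)) (W i t) := by
      apply Gen.const
      rw [mem_prods]
      exact Or.inr (Or.inr (Or.inl ⟨(Symbol.terminal t :: α, i), ⟨hα, by simp only; omega⟩, rfl⟩))
    have h3 : (Rule.sum (some (Symbol.terminal t :: α, i, i + (w.length + 1)))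
        (some ([Symbol.terminal t], i, i + 1)) (some (α, i + 1, i + (w.length + 1))) :
        Rule (Idx g)) ∈ prods W g L := by
      rw [mem_prods]
      exact Or.inr (Or.inr (Or.inr (Or.inl ⟨(Symbol.terminal t :: α, i, i + 1,
        i + (w.length + 1)), ⟨hα, by simp only; omega, by simp only; omega, by simp only; omega⟩,
        rfl⟩)))
    exact Gen.sum h3 h2 h1
  | rule hr _ _ ih1 ih2 =>
    rename_i r α u w _ _
    intro hα i hi
    rw [List.length_append] at hi ⊢
    have h1 := ih1 (suf_output hr) i (by omega)
    have h2 := ih2 (suf_tail hα) (i + u.length) (by omega)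
    rw [show i + u.length + w.length = i + (u.length + w.length) by omega] at h2
    have h3 : Gen (prods W g L) (some ([Symbol.nonterminal r.input], i, i + u.length))
        (val W i u) := by
      apply Gen.unit _ h1
      rw [mem_prods]
      exact Or.inr (Or.inr (Or.inr (Or.inr ⟨(r, i, i + u.length),
        ⟨hr, by simp only; omega, by simp only; omega⟩, rfl⟩)))
    have h4 : (Rule.sum (some (Symbol.nonterminal r.input :: α, i, i + (u.length + w.length)))
        (some ([Symbol.nonterminal r.input], i, i + u.length))
        (some (α, i + u.length, i + (u.length + w.length))) : Rule (Idx g)) ∈ prods W g L := by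
      rw [mem_prods]
      exact Or.inr (Or.inr (Or.inr (Or.inl ⟨(Symbol.nonterminal r.input :: α, i, i + u.length,
        i + (u.length + w.length)), ⟨hα, by simp only; omega, by simp only; omega,
        by simp only; omega⟩, rfl⟩)))
    rw [val_append]
    exact Gen.sum h4 h3 h2

/-- the values of the words of length at most `L` are generated -/
theorem gen_words {W : ℕ → T → ℕ} {L : ℕ} {w : List T} (hw : w ∈ g.language)
    (hL : w.length ≤ L) : Gen (prods W g L) none (val W 0 w) := by
  have h1 := gen_complete (W := W) (L := L) (mem_language_iff_yields.mp hw) suf_initial 0 (by omega)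
  apply Gen.unit _ h1
  rw [mem_prods]
  exact Or.inl ⟨0 + w.length, by omega, rfl⟩

theorem words_gen {W : ℕ → T → ℕ} {L : ℕ} {x : ℕ} (h : Gen (prods W g L) none x) :
    ∃ w ∈ g.language, w.length ≤ L ∧ x = val W 0 w := by
  obtain ⟨w, h1, h2, h3⟩ := gen_sound h
  exact ⟨w, mem_language_iff_yields.mpr h1, h2, h3⟩

end Pool.Agent.Helper28.MG
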