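import Mathlib

/-!
Sets of natural numbers generated by few productions `X_i ⊇ {c}`, `X_i ⊇ X_j`,
`X_i ⊇ X_j + X_l` and cubes of sums inside them.
-/
namespace Pool.Agent.Helper28.MG

/-- A production over the additive monoid of the natural numbers: `const i c` puts the number `c`
into the set `X_i`, `unit i j` puts `X_j` into `X_i`, and `sum i j l` puts the sumset
`X_j + X_l` into `X_i`. -/
inductive Rule (ι : Type) : Type
  | const (i : ι) (c : ℕ) : Rule ι
  | unit (i j : ι) : Rule ι
  | sum (i j l : ι) : Rule ι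

/-- `Gen P i x`: the number `x` lies in the set `X_i` of the least family of sets that obeys all
productions of `P`. -/
inductive Gen {ι : Type} (P : Finset (Rule ι)) : ι → ℕ → Prop
  | const {i : ι} {c : ℕ} : Rule.const i c ∈ P → Gen P i c
  | unit {i j : ι} {x : ℕ} : Rule.unit i j ∈ P → Gen P j x → Gen P i x
  | sum {i j l : ι} {x y : ℕ} : Rule.sum i j l ∈ P → Gen P j x → Gen P l y → Gen P i (x + y)

/-- cubes of sums of dimension `m` -/
inductive Cube : ℕ → Finset ℕ → Prop
  | pt (c : ℕ) : Cube 0 {c}
  | step {m : ℕ} {T : Finset ℕ} (u v : ℕ) : u ≠ v → Cube m T →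
      Cube (m + 1) (T.image (fun x => x + u) ∪ T.image (fun x => x + v))

/-- `X` contains a cube of sums of dimension `m` -/
def Has (m : ℕ) (X : Set ℕ) : Prop := ∃ T : Finset ℕ, Cube m T ∧ (T : Set ℕ) ⊆ X

theorem Cube.shift {m : ℕ} {T : Finset ℕ} (h : Cube m T) (w : ℕ) :
    Cube m (T.image (fun x => x + w)) := by
  induction h with
  | pt c => simpa using Cube.pt (c + w)
  | step u v huv _ ih =>
    rename_i T _
    have := Cube.step u v huv ih
    have e : Finset.image (fun x => x + w) (Finset.image (fun x => x + u) T ∪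
        Finset.image (fun x => x + v) T) =
        Finset.image (fun x => x + u) (Finset.image (fun x => x + w) T) ∪
        Finset.image (fun x => x + v) (Finset.image (fun x => x + w) T) := by
      rw [Finset.image_union, Finset.image_image, Finset.image_image, Finset.image_image,
        Finset.image_image]
      congr 1
      · apply Finset.image_congr; intro x _; simp only [Function.comp]; omega
      · apply Finset.image_congr; intro x _; simp only [Function.comp]; omega
    rw [e]
    exact this

theorem Has.mono {m : ℕ} {X Y : Set ℕ} (h : Has m X) (hXY : X ⊆ Y) : Has m Y := by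
  obtain ⟨T, hT, hTX⟩ := h
  exact ⟨T, hT, hTX.trans hXY⟩

theorem Has.shift {m : ℕ} {X Y : Set ℕ} (h : Has m X) {w : ℕ} (hw : ∀ z ∈ X, z + w ∈ Y) :
    Has m Y := by
  obtain ⟨T, hT, hTX⟩ := h
  refine ⟨T.image (fun x => x + w), hT.shift w, ?_⟩
  intro y hy
  rw [Finset.mem_coe, Finset.mem_image] at hy
  obtain ⟨x, hx, rfl⟩ := hy
  exact hw x (hTX hx)

theorem Has.two {m : ℕ} {X Y : Set ℕ} (h : Has m X) {u v : ℕ} (huv : u ≠ v)
    (hu : ∀ z ∈ X, z + u ∈ Y) (hv : ∀ z ∈ X, z + v ∈ Y) : Has (m + 1) Y := by
  obtain ⟨T, hT, hTX⟩ := h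
  refine ⟨_, Cube.step u v huv hT, ?_⟩
  intro y hy
  rw [Finset.mem_coe, Finset.mem_union, Finset.mem_image, Finset.mem_image] at hy
  rcases hy with ⟨x, hx, rfl⟩ | ⟨x, hx, rfl⟩
  · exact hu x (hTX hx)
  · exact hv x (hTX hx)

theorem Has.pred {m : ℕ} {X : Set ℕ} (h : Has (m + 1) X) : Has m X := by
  obtain ⟨T, hT, hTX⟩ := h
  cases hT with
  | step u v _ h' =>
    refine ⟨_, h'.shift u, ?_⟩
    intro y hy
    apply hTX
    rw [Finset.mem_coe] at hy ⊢
    exact Finset.mem_union_left _ hy

theorem Has.le {m n : ℕ} {X : Set ℕ} (h : Has n X) (hmn : m ≤ n) : Has m X := by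
  induction n with
  | zero => have : m = 0 := by omega
            subst this; exact h
  | succ n ih =>
    rcases Nat.lt_or_ge n m with h1 | h1
    · have : m = n + 1 := by omega
      subst this; exact h
    · exact ih h.pred h1

theorem Cube.add {m : ℕ} {T : Finset ℕ} (hT : Cube m T) :
    ∀ {n : ℕ} {Y Z : Set ℕ}, Has n Y → (∀ x ∈ T, ∀ y ∈ Y, x + y ∈ Z) → Has (m + n) Z := by
  induction hT with
  | pt c =>
    intro n Y Z hY hZ
    rw [Nat.zero_add]
    exact hY.shift (w := c) (fun z hz => by rw [add_comm]; exact hZ c (by simp) z hz)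
  | step u v huv _ ih =>
    rename_i m T _
    intro n Y Z hY hZ
    have h1 : Has (m + n) {z | z + u ∈ Z ∧ z + v ∈ Z} := by
      apply ih hY
      intro x hx y hy
      refine ⟨?_, ?_⟩
      · have := hZ (x + u) (Finset.mem_union_left _ (Finset.mem_image_of_mem _ hx)) y hy
        rwa [show x + u + y = x + y + u by omega] at this
      · have := hZ (x + v) (Finset.mem_union_right _
          (Finset.mem_image_of_mem (fun x => x + v) hx)) y hy
        rwa [show x + v + y = x + y + v by omega] at this
    have := h1.two huv (Y := Z) (fun z hz => hz.1) (fun z hz => hz.2)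
    rwa [show m + 1 + n = m + n + 1 by omega]

theorem Has.add {m n : ℕ} {X Y Z : Set ℕ} (hX : Has m X) (hY : Has n Y)
    (hZ : ∀ x ∈ X, ∀ y ∈ Y, x + y ∈ Z) : Has (m + n) Z := by
  obtain ⟨T, hT, hTX⟩ := hX
  exact hT.add hY (fun x hx y hy => hZ x (hTX hx) y hy)

theorem Has.zero {X : Set ℕ} {x : ℕ} (hx : x ∈ X) : Has 0 X :=
  ⟨{x}, Cube.pt x, by simpa using hx⟩

theorem Has.one {X : Set ℕ} {x y : ℕ} (hx : x ∈ X) (hy : y ∈ X) (hxy : x ≠ y) : Has 1 X := by
  refine ⟨_, Cube.step x y hxy (Cube.pt 0), ?_⟩
  intro z hz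
  simp only [Finset.image_singleton, Nat.zero_add, Finset.coe_union, Finset.coe_singleton,
    Set.mem_union, Set.mem_singleton_iff] at hz
  rcases hz with rfl | rfl
  · exact hx
  · exact hy

/-- a nonempty set without a cube of dimension `r` has an exact rank -/
theorem exists_rank {X : Set ℕ} {x : ℕ} (hx : x ∈ X) : ∀ r : ℕ, ¬ Has r X →
    ∃ s, s < r ∧ Has s X ∧ ¬ Has (s + 1) X := by
  intro r
  induction r with
  | zero => intro h; exact absurd (Has.zero hx) h
  | succ r ih =>
    intro h
    by_cases h1 : Has r X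
    · exact ⟨r, by omega, h1, h⟩
    · obtain ⟨s, hs, h2⟩ := ih h1
      exact ⟨s, by omega, h2⟩

variable {ι : Type}

/-- the counting theorem: a set generated by `P` that contains no cube of dimension `r + 1` has at
most `|P| ^ (2 r - 1)` elements -/
theorem count (P : Finset (Rule ι)) : ∀ (r : ℕ) (i : ι), ¬ Has (r + 1) {x | Gen P i x} →
    ∃ F : Finset ℕ, ({x | Gen P i x} : Set ℕ) ⊆ F ∧ F.card ≤ P.card ^ (2 * r - 1) := by
  classical
  intro r
  induction r using Nat.strong_induction_on with
  | _ r IH =>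
    intro i0 hi0
    -- the case of rank zero
    rcases Nat.eq_zero_or_pos r with hr0 | hr0
    · subst hr0
      by_cases hne : ∃ x, Gen P i0 x
      · obtain ⟨x, hx⟩ := hne
        refine ⟨{x}, ?_, by simp⟩
        intro y hy
        rw [Finset.coe_singleton, Set.mem_singleton_iff]
        by_contra hxy
        exact hi0 (Has.one hy hx hxy)
      · refine ⟨∅, ?_, by simp⟩
        intro y hy
        exact absurd ⟨y, hy⟩ hne
    -- the productions exist
    rcases Nat.eq_zero_or_pos P.card with hP | hP
    · have hP' : P = ∅ := Finset.card_eq_zero.mp hP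
      refine ⟨∅, ?_, by simp⟩
      intro y hy
      exfalso
      have hy' : Gen P i0 y := hy
      cases hy' with
      | const h => rw [hP'] at h; exact absurd h (Finset.notMem_empty _)
      | unit h _ => rw [hP'] at h; exact absurd h (Finset.notMem_empty _)
      | sum h _ _ => rw [hP'] at h; exact absurd h (Finset.notMem_empty _)
    by_cases htop : Has r {x | Gen P i0 x}
    swap
    · obtain ⟨F, hF, hc⟩ := IH (r - 1) (by omega) i0 (by rwa [show r - 1 + 1 = r by omega])
      exact ⟨F, hF, le_trans hc (Nat.pow_le_pow_right hP (by omega))⟩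
    -- contexts
    let ctx : ι → ℕ → Prop := fun i u => ∀ z, Gen P i z → Gen P i0 (z + u)
    have huniq : ∀ i u v, Has r {x | Gen P i x} → ctx i u → ctx i v → u = v := by
      intro i u v h hu hv
      by_contra huv
      exact hi0 (h.two huv (fun z hz => hu z hz) (fun z hz => hv z hz))
    -- exit sets
    let E : Rule ι → Set ℕ := fun p => match p with
      | Rule.const i c => {z | ∃ u, ctx i u ∧ Has r {x | Gen P i x} ∧ z = c + u}
      | Rule.unit i j => {z | ∃ u, ctx i u ∧ Has r {x | Gen P i x} ∧ ¬ Has r {x | Gen P j x} ∧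
          ∃ y, Gen P j y ∧ z = y + u}
      | Rule.sum i j l => {z | ∃ u, ctx i u ∧ Has r {x | Gen P i x} ∧ ¬ Has r {x | Gen P j x} ∧
          ¬ Has r {x | Gen P l x} ∧ ∃ y y', Gen P j y ∧ Gen P l y' ∧ z = y + y' + u}
    have hcover : ∀ i y, Gen P i y → ∀ u, ctx i u → Has r {x | Gen P i x} →
        ∃ p ∈ P, y + u ∈ E p := by
      intro i y hy
      induction hy with
      | const h =>
        intro u hu hr
        exact ⟨_, h, u, hu, hr, rfl⟩
      | unit h hj ih =>
        rename_i i j x
        intro u hu hr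
        by_cases hj' : Has r {x | Gen P j x}
        · exact ih u (fun z hz => hu z (Gen.unit h hz)) hj'
        · exact ⟨_, h, u, hu, hr, hj', x, hj, rfl⟩
      | sum h hj hl ihj ihl =>
        rename_i i j l x y
        intro u hu hr
        by_cases hj' : Has r {x | Gen P j x}
        · have hl1 : ∀ y', Gen P l y' → y' = y := by
            intro y' hy'
            by_contra hne
            have h1 : Has 1 {x | Gen P l x} := Has.one hy' hl hne
            have h2 : Has (r + 1) {x | Gen P i x} := hj'.add h1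
              (fun a ha b hb => Gen.sum h ha hb)
            exact hi0 (h2.shift (w := u) (fun z hz => hu z hz))
          obtain ⟨p, hp, hpE⟩ := ihj (y + u) (fun z hz => by
            have := hu _ (Gen.sum h hz hl)
            rwa [show z + y + u = z + (y + u) by omega] at this) hj'
          refine ⟨p, hp, ?_⟩
          rwa [show x + y + u = x + (y + u) by omega]
        · by_cases hl' : Has r {x | Gen P l x}
          · obtain ⟨p, hp, hpE⟩ := ihl (x + u) (fun z hz => by
              have := hu _ (Gen.sum h hj hz)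
              rwa [show x + z + u = z + (x + u) by omega] at this) hl'
            refine ⟨p, hp, ?_⟩
            rwa [show x + y + u = y + (x + u) by omega]
          · exact ⟨_, h, u, hu, hr, hj', hl', x, y, hj, hl, rfl⟩
    -- sizes of the exit sets
    have hpow : ∀ e, e ≤ 2 * r - 2 → P.card ^ e ≤ P.card ^ (2 * r - 2) := fun e he =>
      Nat.pow_le_pow_right hP he
    have hsize : ∀ p ∈ P, ∃ F : Finset ℕ, E p ⊆ F ∧ F.card ≤ P.card ^ (2 * r - 2) := by
      intro p hp
      by_cases hempty : ∃ z, z ∈ E p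
      swap
      · exact ⟨∅, fun z hz => absurd ⟨z, hz⟩ hempty, by simp⟩
      obtain ⟨z0, hz0⟩ := hempty
      cases p with
      | const i c =>
        obtain ⟨u, hu, hr, _⟩ := hz0
        refine ⟨{c + u}, ?_, by rw [Finset.card_singleton]; exact Nat.one_le_pow _ _ hP⟩
        rintro z ⟨v, hv, _, rfl⟩
        rw [huniq i u v hr hu hv]
        simp
      | unit i j =>
        obtain ⟨u, hu, hr, hj, _⟩ := hz0
        obtain ⟨F, hF, hc⟩ := IH (r - 1) (by omega) j (by rwa [show r - 1 + 1 = r by omega])
        refine ⟨F.image (fun y => y + u), ?_, ?_⟩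
        · rintro z ⟨v, hv, _, _, y, hy, rfl⟩
          rw [← huniq i u v hr hu hv, Finset.mem_coe, Finset.mem_image]
          exact ⟨y, hF hy, rfl⟩
        · exact le_trans Finset.card_image_le (le_trans hc (hpow _ (by omega)))
      | sum i j l =>
        obtain ⟨u, hu, hr, hj, hl, y0, y1, hy0, hy1, _⟩ := hz0
        obtain ⟨s, hs, hs1, hs2⟩ := exists_rank (X := {x | Gen P j x}) hy0 r hj
        obtain ⟨t, ht, ht1, ht2⟩ := exists_rank (X := {x | Gen P l x}) hy1 r hl
        have hst : s + t ≤ r := by
          by_contra hcon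
          have h2 : Has (s + t) {x | Gen P i x} := hs1.add ht1
            (fun a ha b hb => Gen.sum hp ha hb)
          exact hi0 ((h2.le (by omega)).shift (w := u) (fun z hz => hu z hz))
        obtain ⟨F, hF, hFc⟩ := IH s hs j hs2
        obtain ⟨F', hF', hFc'⟩ := IH t ht l ht2
        refine ⟨(F ×ˢ F').image (fun q => q.1 + q.2 + u), ?_, ?_⟩
        · rintro z ⟨v, hv, _, _, _, y, y', hy, hy', rfl⟩
          rw [← huniq i u v hr hu hv, Finset.mem_coe, Finset.mem_image]
          exact ⟨(y, y'), Finset.mem_product.mpr ⟨hF hy, hF' hy'⟩, rfl⟩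
        · refine le_trans Finset.card_image_le ?_
          rw [Finset.card_product]
          refine le_trans (Nat.mul_le_mul hFc hFc') ?_
          rw [← pow_add]
          exact hpow _ (by omega)
    choose! F hF hFc using hsize
    refine ⟨P.biUnion F, ?_, ?_⟩
    · intro y hy
      obtain ⟨p, hp, hpE⟩ := hcover i0 y hy 0 (fun z hz => by simpa using hz) htop
      rw [Finset.mem_coe, Finset.mem_biUnion]
      exact ⟨p, hp, hF p hp (by simpa using hpE)⟩
    · refine le_trans Finset.card_biUnion_le ?_
      refine le_trans (Finset.sum_le_sum (fun p hp => hFc p hp)) ?_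
      rw [Finset.sum_const, smul_eq_mul]
      calc P.card * P.card ^ (2 * r - 2) = P.card ^ (2 * r - 2 + 1) := by rw [pow_succ]; ring
        _ ≤ P.card ^ (2 * r - 1) := Nat.pow_le_pow_right hP (by omega)

theorem card_union_shift (S : Finset ℕ) (hS : S.Nonempty) {c d : ℕ} (h : c ≠ d) :
    S.card + 1 ≤ (S.image (fun x => x + c) ∪ S.image (fun x => x + d)).card := by
  have key : ∀ c d : ℕ, c < d →
      S.card + 1 ≤ (S.image (fun x => x + c) ∪ S.image (fun x => x + d)).card := by
    intro c d hcd
    have h1 : (insert (S.max' hS + d) (S.image (fun x => x + c))).card = S.card + 1 := by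
      rw [Finset.card_insert_of_notMem]
      · rw [Finset.card_image_of_injective _ (fun x y hxy => by simpa using hxy)]
      · intro hmem
        rw [Finset.mem_image] at hmem
        obtain ⟨x, hx, hx2⟩ := hmem
        have := S.le_max' x hx
        omega
    rw [← h1]
    apply Finset.card_le_card
    intro y hy
    rw [Finset.mem_insert] at hy
    rw [Finset.mem_union]
    rcases hy with hy | hy
    · right
      rw [Finset.mem_image]
      exact ⟨_, S.max'_mem hS, hy.symm⟩
    · left; exact hy
  rcases lt_or_gt_of_ne h with h | h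
  · exact key c d h
  · rw [Finset.union_comm]; exact key d c h

/-- a cube of dimension `m` has at least `m + 1` elements and is symmetric -/
theorem Cube.sym {m : ℕ} {T : Finset ℕ} (h : Cube m T) :
    ∃ S, m + 1 ≤ T.card ∧ ∀ x ∈ T, ∃ y ∈ T, x + y = S := by
  induction h with
  | pt c => exact ⟨c + c, by simp, by simp⟩
  | step u v huv _ ih =>
    rename_i m T _
    obtain ⟨S, hS, hsym⟩ := ih
    refine ⟨S + u + v, ?_, ?_⟩
    · have := card_union_shift T (Finset.card_pos.mp (by omega)) huv
      omega
    · intro x hx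
      rw [Finset.mem_union, Finset.mem_image, Finset.mem_image] at hx
      rcases hx with ⟨a, ha, rfl⟩ | ⟨a, ha, rfl⟩
      · obtain ⟨b, hb, hab⟩ := hsym a ha
        exact ⟨b + v, Finset.mem_union_right _ (Finset.mem_image_of_mem (fun x => x + v) hb),
          by omega⟩
      · obtain ⟨b, hb, hab⟩ := hsym a ha
        exact ⟨b + u, Finset.mem_union_left _ (Finset.mem_image_of_mem _ hb), by omega⟩

/-- the number of ordered pairs of elements of `A` with sum `n` -/
noncomputable def rep (A : Set ℕ) (n : ℕ) : ℕ :=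
  ({p : ℕ × ℕ | p.1 ∈ A ∧ p.2 ∈ A ∧ p.1 + p.2 = n}).ncard

theorem rep_finite (A : Set ℕ) (n : ℕ) :
    ({p : ℕ × ℕ | p.1 ∈ A ∧ p.2 ∈ A ∧ p.1 + p.2 = n}).Finite := by
  apply (Finset.finite_toSet (Finset.range (n + 1) ×ˢ Finset.range (n + 1))).subset
  rintro ⟨a, b⟩ ⟨_, _, h⟩
  simp only [Finset.coe_product, Finset.coe_range, Set.mem_prod, Set.mem_Iio]
  simp only at h
  omega

/-- a cube of dimension `m` in `A` gives a number with `m + 1` representations -/
theorem Has.rep {m : ℕ} {A : Set ℕ} (h : Has m A) : ∃ n, m + 1 ≤ rep A n := by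
  classical
  obtain ⟨T, hT, hTA⟩ := h
  obtain ⟨S, hc, hsym⟩ := hT.sym
  refine ⟨S, le_trans hc ?_⟩
  have hsub : ((T.image (fun x => (x, S - x)) : Finset (ℕ × ℕ)) : Set (ℕ × ℕ)) ⊆
      {p : ℕ × ℕ | p.1 ∈ A ∧ p.2 ∈ A ∧ p.1 + p.2 = S} := by
    intro p hp
    rw [Finset.mem_coe, Finset.mem_image] at hp
    obtain ⟨x, hx, rfl⟩ := hp
    obtain ⟨y, hy, hxy⟩ := hsym x hx
    refine ⟨hTA hx, ?_, ?_⟩
    · have : S - x = y := by omega
      simp only [this]; exact hTA hy
    · simp only; omega
  have h1 := Set.ncard_le_ncard hsub (rep_finite A S)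
  rw [Set.ncard_coe_finset, Finset.card_image_of_injective _ (fun x y hxy => by
    have := congrArg Prod.fst hxy; simpa using this)] at h1
  exact h1

/-- bounded representation function: few productions generate few elements -/
theorem bound {A : Set ℕ} {R : ℕ} (hA : ∀ n, rep A n ≤ R) (P : Finset (Rule ι)) (i : ι)
    (hi : ∀ x, Gen P i x → x ∈ A) :
    ∃ F : Finset ℕ, ({x | Gen P i x} : Set ℕ) ⊆ F ∧ F.card ≤ P.card ^ (2 * (R - 1) - 1) := by
  rcases Nat.eq_zero_or_pos R with h0 | h0
  · refine ⟨∅, ?_, by simp⟩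
    intro x hx
    exfalso
    obtain ⟨n, hn⟩ := (Has.zero (X := A) (hi x hx)).rep
    have := hA n
    omega
  · apply count
    rw [show R - 1 + 1 = R by omega]
    intro h
    obtain ⟨n, hn⟩ := (h.mono (Y := A) (fun x hx => hi x hx)).rep
    have := hA n
    omega

end Pool.Agent.Helper28.MG
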